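import Pool.Agent.W398.SG.Stm

namespace Pool.Agent.W35.SG.Gam

open Pool.Agent.W37.SG Pool.Agent.W398.SG
open scoped commutatorElement

universe u

theorem gam : S_GAM.{u} := by
  intro R _ _ _
  refine ⟨?_, ?_, ?_⟩
  · intro i
    unfold gammaBar
    apply Subgroup.topologicalClosure_mono
    exact Subgroup.lowerCentralSeries_antitone (⊤ : Subgroup R) (Nat.le_succ i)
  · intro i x hx r
    have hcont : Continuous (fun x : R => ⁅x, r⁆) := by
      simp only [commutatorElement_def]
      fun_prop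
    have hmaps : Set.MapsTo (fun x : R => ⁅x, r⁆)
        (((⊤ : Subgroup R).lowerCentralSeries i : Subgroup R) : Set R)
        (((⊤ : Subgroup R).lowerCentralSeries (i + 1) : Subgroup R) : Set R) := by
      intro y hy
      exact Subgroup.commutator_mem_commutator hy (Subgroup.mem_top r)
    exact map_mem_closure (f := fun x : R => ⁅x, r⁆) hcont hx hmaps
  · intro i L hL h
    unfold gammaBar
    apply Subgroup.topologicalClosure_minimal _ _ hL
    have : (⊤ : Subgroup R).lowerCentralSeries (i + 1) =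
        ⁅(⊤ : Subgroup R).lowerCentralSeries i, (⊤ : Subgroup R)⁆ := rfl
    rw [this, Subgroup.commutator_le]
    intro g₁ h₁ g₂ _
    exact h g₁ (Subgroup.le_topologicalClosure _ h₁) g₂

theorem nil : S_NIL.{u} := by
  intro p _ R _ _ _ hR U hU hUo
  obtain ⟨n, hn⟩ := hR.pindex U hU hUo
  have hcard : Nat.card (R ⧸ U) = p ^ n := by
    rw [← hn]; rfl
  have : Finite (R ⧸ U) := Nat.finite_of_card_ne_zero (by
    rw [hcard]; exact pow_ne_zero _ (Fact.out : p.Prime).ne_zero)
  have hpg : IsPGroup p (R ⧸ U) := IsPGroup.of_card hcard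
  have hnil : Group.IsNilpotent (R ⧸ U) := hpg.isNilpotent
  obtain ⟨c, hc⟩ := Subgroup.nilpotent_iff_lowerCentralSeries.mp hnil
  refine ⟨c, ?_⟩
  unfold gammaBar
  apply Subgroup.topologicalClosure_minimal _ _ (U.isClosed_of_isOpen hUo)
  have hmap : ((⊤ : Subgroup R).lowerCentralSeries c).map (QuotientGroup.mk' U) ≤
      (⊤ : Subgroup (R ⧸ U)).lowerCentralSeries c := by
    rw [Subgroup.map_lowerCentralSeries]
    exact Subgroup.lowerCentralSeries_mono c le_top
  rw [hc] at hmap
  intro x hx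
  have h1 : QuotientGroup.mk' U x ∈ (⊥ : Subgroup (R ⧸ U)) := hmap ⟨x, hx, rfl⟩
  rw [Subgroup.mem_bot] at h1
  exact (QuotientGroup.eq_one_iff x).mp h1

end Pool.Agent.W35.SG.Gam
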